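import Pool.Agent.LibPO57.NW

/-!
[PD57 N1] Newton's identities for the sums of the principal minors of a matrix.

PLAN.  Template: `matrix_newton` in LibPO57/NW.lean (same file, same proof): `K = AlgebraicClosure F`, the eigenvalues `α : Fin r → K` (`r = Fintype.card I`) of
`A.map φ`, `φ (A ^ m).trace = ∑ i, α i ^ m` (`DB51.trace_pow_eq`), `LibSS99.newton α k`.  It remains `φ (∑ principal k-minors of A) = LibSS99.ee α k`:
for `k ≤ r`: `Matrix.charpoly_coeff_eq_sum_minors` (Mathlib.LinearAlgebra.Matrix.Charpoly.Coeff) for `A.map φ`, and the coefficient of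
`charpoly = ∏ (X - C α i)` is `(-1) ^ k` times the `k`-th elementary symmetric function (`Multiset.prod_X_sub_C_coeff`, `Polynomial.coeff_eq_esymm_roots_of_card`,
`Finset.esymm_map_val`; `LibSS99.ee α k` is the sum over `powersetCard k univ` of the products); `φ` of a minor is the minor of `A.map φ` (`RingHom.map_det`).
For `k > r` both sides are `0` (empty `powersetCard`).
-/

set_option autoImplicit false

namespace Pool.Agent.PD

open Finset Pool.Agent.PO

private theorem N1_enum {K : Type*} (s : Multiset K) (r : ℕ) (h : Multiset.card s = r) :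
    ∃ α : Fin r → K, (univ : Finset (Fin r)).val.map α = s := by
  obtain ⟨l, rfl⟩ : ∃ l : List K, s = (l : Multiset K) := ⟨s.toList, (Multiset.coe_toList s).symm⟩
  subst h
  refine ⟨l.get, ?_⟩
  have h1 := Fin.univ_val_map (n := l.length) l.get
  rw [List.ofFn_get] at h1
  exact h1

private theorem N1_sum {K : Type*} [Field K] (f : ℕ → ℕ → K) (k : ℕ) :
    ∑ a ∈ antidiagonal k with a.1 < k, f a.1 a.2 = ∑ i ∈ range k, f i (k - i) := by
  rw [Finset.sum_filter,
    Finset.Nat.sum_antidiagonal_eq_sum_range_succ (fun i j => if i < k then f i j else 0) k,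
    Finset.sum_range_succ]
  simp only [lt_self_iff_false, if_false, add_zero]
  exact Finset.sum_congr rfl fun i hi => by rw [if_pos (Finset.mem_range.1 hi)]

theorem newton_minors {F : Type*} [Field F] [CharZero F] {I : Type} [Fintype I] [DecidableEq I] (A : Matrix I I F) :
    ∃ e : ℕ → F, e 0 = 1 ∧
      (∀ k, e k = ∑ s ∈ (Finset.univ : Finset I).powersetCard k, (A.submatrix (Subtype.val : s → I) (Subtype.val : s → I)).det) ∧
      ∀ k : ℕ, 1 ≤ k → (k : F) * e k = (-1) ^ (k + 1) * ∑ i ∈ range k, (-1) ^ i * e i * (A ^ (k - i)).trace := by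
  set φ : F →+* AlgebraicClosure F := algebraMap F (AlgebraicClosure F) with hφd
  have hφ : Function.Injective φ := (algebraMap F (AlgebraicClosure F)).injective
  set B : Matrix I I (AlgebraicClosure F) := A.map φ with hB
  have hcard : Multiset.card B.charpoly.roots = Fintype.card I := by
    rw [Polynomial.splits_iff_card_roots.1 (IsAlgClosed.splits B.charpoly),
      B.charpoly_natDegree_eq_dim]
  obtain ⟨α, hα⟩ := N1_enum _ (Fintype.card I) hcard
  have htr : ∀ m, φ (A ^ m).trace = ∑ i, α i ^ m := by
    intro m
    have h1 : φ (A ^ m).trace = (B ^ m).trace := by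
      rw [hB, ← Matrix.map_pow]
      exact (AddMonoidHom.map_trace (φ : F →+ AlgebraicClosure F) (A ^ m))
    rw [h1, DB51.trace_pow_eq, ← hα, Multiset.map_map]
    rfl
  have hnew : ∀ k : ℕ, (k : AlgebraicClosure F) * LibSS99.ee α k = (-1) ^ (k + 1) *
      ∑ i ∈ range k, (-1) ^ i * LibSS99.ee α i * φ (A ^ (k - i)).trace := by
    intro k
    rw [LibSS99.newton α k]
    congr 1
    rw [N1_sum (fun i j => (-1) ^ i * LibSS99.ee α i * ∑ l, α l ^ j) k]
    exact Finset.sum_congr rfl fun i _ => by rw [htr]
  have hee : ∀ k, φ (∑ s ∈ (Finset.univ : Finset I).powersetCard k,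
      (A.submatrix (Subtype.val : s → I) (Subtype.val : s → I)).det) = LibSS99.ee α k := by
    intro k
    have h1 : φ (∑ s ∈ (Finset.univ : Finset I).powersetCard k,
        (A.submatrix (Subtype.val : s → I) (Subtype.val : s → I)).det) =
        ∑ s ∈ (Finset.univ : Finset I).powersetCard k,
          (B.submatrix (Subtype.val : s → I) (Subtype.val : s → I)).det := by
      rw [map_sum]
      refine Finset.sum_congr rfl fun s _ => ?_
      rw [RingHom.map_det φ]
      rfl
    rw [h1]
    by_cases hk : k ≤ Fintype.card I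
    · have h2 := Matrix.charpoly_coeff_eq_sum_minors B k hk
      have h3 : B.charpoly.coeff (Fintype.card I - k) =
          (-1) ^ k * LibSS99.ee α k := by
        rw [Polynomial.coeff_eq_esymm_roots_of_splits (IsAlgClosed.splits B.charpoly)
          (by rw [B.charpoly_natDegree_eq_dim]; omega), B.charpoly_natDegree_eq_dim,
          (Matrix.charpoly_monic B).leadingCoeff, one_mul,
          show Fintype.card I - (Fintype.card I - k) = k by omega, ← hα,
          LibSS99.ee_multiset]
      rw [h3] at h2
      have h4 : ((-1 : AlgebraicClosure F) ^ k) ≠ 0 := pow_ne_zero _ (by norm_num)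
      exact (mul_left_cancel₀ h4 h2).symm
    · push Not at hk
      rw [Finset.powersetCard_eq_empty.2 (by rw [Finset.card_univ]; exact hk), LibSS99.ee,
        Finset.powersetCard_eq_empty.2 (by rw [Finset.card_univ, Fintype.card_fin]; exact hk)]
      simp
  refine ⟨fun k => ∑ s ∈ (Finset.univ : Finset I).powersetCard k,
    (A.submatrix (Subtype.val : s → I) (Subtype.val : s → I)).det, hφ ?_, fun k => rfl,
    fun k _ => hφ ?_⟩
  · rw [hee 0, map_one]
    simp [LibSS99.ee]
  · rw [map_mul, map_natCast, hee k, hnew k, map_mul, map_pow, map_neg, map_one, map_sum]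
    congr 1
    refine Finset.sum_congr rfl fun i _ => ?_
    rw [map_mul, map_mul, map_pow, map_neg, map_one, hee i]

end Pool.Agent.PD
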