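import Pool.Agent.LibPO57.NW
import Pool.Agent.LibHF31.E3

/-!
[PD57 N2] the elementary symmetric functions of the numbers `ε (n π)^(-W)`, `n ≥ 1`, `W` even, are nonzero rationals.

PLAN.  The recursion defines `E` (strong recursion on `k`: `E k = (1/k) (...)`, e.g. existence by `Nat.strong_induction_on` + `choose`, as `hrange` in the proof of `matrix_newton`, or a
`noncomputable def` by well-founded recursion on `ℕ` using `Finset.sum` over `Fin k`/`(range k).attach`).  Nonzero: for `M ∈ ℕ` let `x : Fin M → ℝ`, `x n = ε ((n + 1) π)^(-W)`,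
`p M i = ∑ n, x n ^ i = ε ^ i ∑_{n < M} ((n + 1) π)^(-W i)`, which tends to `ε ^ i q (i W)` for `M → ∞`, `i ≥ 1` (`Pool.Agent.HF.zt_singleton`: `HasSum (1 / k^N) (zt [N])`, `k = 0` gives `0`;
`HasSum.tendsto_sum_nat`; `hq`).  `LibSS99.newton` (finite Newton identities for `LibSS99.ee x k`, see NW.lean for its use and `NW_sum` for the index shift; copy `NW_sum`): by strong induction on `k`,
`LibSS99.ee x k → E k` (as real numbers).  And `ε ^ k * ee x k = ∑_{|s| = k} ∏_{n ∈ s} ((n + 1) π)^(-W) ≥ ∏_{n < k} ((n + 1) π)^(-W) =: δ > 0` for `M ≥ k` (one term of a sum of nonnegative terms: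
`Finset.single_le_sum` with `s = {0, .., k-1}`).  So `ε ^ k E k ≥ δ > 0` (`ge_of_tendsto`).
-/

set_option autoImplicit false

namespace Pool.Agent.PD

open Finset Pool.Agent.PO

private theorem N2_sum {K : Type*} [Field K] (f : ℕ → ℕ → K) (k : ℕ) :
    ∑ a ∈ antidiagonal k with a.1 < k, f a.1 a.2 = ∑ i ∈ range k, f i (k - i) := by
  rw [Finset.sum_filter,
    Finset.Nat.sum_antidiagonal_eq_sum_range_succ (fun i j => if i < k then f i j else 0) k,
    Finset.sum_range_succ]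
  simp only [lt_self_iff_false, if_false, add_zero]
  exact Finset.sum_congr rfl fun i hi => by rw [if_pos (Finset.mem_range.1 hi)]

private noncomputable def N2_E (p : ℕ → ℚ) : ℕ → ℚ
  | 0 => 1
  | (k + 1) => ((k + 1 : ℕ) : ℚ)⁻¹ * ((-1) ^ (k + 2) *
      ∑ i : Fin (k + 1), (-1) ^ (i : ℕ) * N2_E p (i : ℕ) * p (k + 1 - (i : ℕ)))
  decreasing_by exact i.2

private theorem N2_rec (p : ℕ → ℚ) (k : ℕ) (hk : 1 ≤ k) :
    (k : ℚ) * N2_E p k = (-1) ^ (k + 1) * ∑ i ∈ range k, (-1) ^ i * N2_E p i * p (k - i) := by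
  obtain ⟨m, rfl⟩ : ∃ m, k = m + 1 := ⟨k - 1, by omega⟩
  have h0 : ((m + 1 : ℕ) : ℚ) ≠ 0 := by positivity
  rw [N2_E, mul_inv_cancel_left₀ h0]
  congr 1
  exact (Finset.sum_range (fun i => (-1 : ℚ) ^ i * N2_E p i * p (m + 1 - i))).symm

/-- The numbers `((n + 1) π)^(-W)`. -/
private noncomputable def N2_y (W n : ℕ) : ℝ := 1 / (((n : ℝ) + 1) * Real.pi) ^ W

private theorem N2_y_pos (W n : ℕ) : 0 < N2_y W n := by
  unfold N2_y
  have := Real.pi_pos
  positivity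

private theorem N2_power (q : ℕ → ℚ)
    (hq : ∀ N, 2 ≤ N → Even N → (Pool.Agent.HF.zt [N] : ℝ) = (q N : ℝ) * Real.pi ^ N)
    (W : ℕ) (hW : 2 ≤ W) (he : Even W) (ε : ℝ) (j : ℕ) (hj : 1 ≤ j) :
    Filter.Tendsto (fun M : ℕ => ∑ i : Fin M, (ε * N2_y W (i : ℕ)) ^ j) Filter.atTop
      (nhds (ε ^ j * (q (j * W) : ℝ))) := by
  have hN2 : 2 ≤ j * W := le_trans hW (Nat.le_mul_of_pos_left W hj)
  have hNe : Even (j * W) := he.mul_left j
  have h1 := (Pool.Agent.HF.zt_singleton (j * W) hN2).tendsto_sum_nat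
  have h2 : Filter.Tendsto (fun M : ℕ => ∑ k ∈ range (M + 1), (1 : ℝ) / (k : ℝ) ^ (j * W))
      Filter.atTop (nhds (Pool.Agent.HF.zt [j * W])) :=
    h1.comp (Filter.tendsto_add_atTop_nat 1)
  have h3 := h2.const_mul (ε ^ j / Real.pi ^ (j * W))
  have hpi : Real.pi ^ (j * W) ≠ 0 := pow_ne_zero _ Real.pi_pos.ne'
  have h4 : ε ^ j / Real.pi ^ (j * W) * Pool.Agent.HF.zt [j * W] = ε ^ j * (q (j * W) : ℝ) := by
    rw [hq _ hN2 hNe]
    field_simp
  rw [h4] at h3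
  refine h3.congr fun M => ?_
  rw [Finset.sum_range_succ', Nat.cast_zero, zero_pow (by omega : j * W ≠ 0), div_zero, add_zero,
    Finset.mul_sum, ← Fin.sum_univ_eq_sum_range
      (fun k => ε ^ j / Real.pi ^ (j * W) * (1 / ((k + 1 : ℕ) : ℝ) ^ (j * W))) M]
  refine Finset.sum_congr rfl fun i _ => ?_
  unfold N2_y
  rw [mul_pow ε, div_pow, one_pow, ← pow_mul, mul_pow, mul_comm W j]
  push_cast
  field_simp

private theorem N2_tendsto (q : ℕ → ℚ)
    (hq : ∀ N, 2 ≤ N → Even N → (Pool.Agent.HF.zt [N] : ℝ) = (q N : ℝ) * Real.pi ^ N)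
    (W : ℕ) (hW : 2 ≤ W) (he : Even W) (ε : ℚ) (k : ℕ) :
    Filter.Tendsto (fun M : ℕ => LibSS99.ee (fun i : Fin M => (ε : ℝ) * N2_y W (i : ℕ)) k)
      Filter.atTop (nhds (N2_E (fun j => ε ^ j * q (j * W)) k : ℝ)) := by
  induction k using Nat.strong_induction_on with
  | _ k ih =>
    rcases Nat.eq_zero_or_pos k with rfl | hk
    · have h0 : (N2_E (fun j => ε ^ j * q (j * W)) 0 : ℝ) = 1 := by
        rw [N2_E]; norm_num
      rw [h0]
      have h1 : (fun M : ℕ => LibSS99.ee (fun i : Fin M => (ε : ℝ) * N2_y W (i : ℕ)) 0) =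
          fun _ => (1 : ℝ) := by
        funext M
        simp [LibSS99.ee]
      rw [h1]
      exact tendsto_const_nhds
    · have hk0 : (k : ℝ) ≠ 0 := Nat.cast_ne_zero.2 hk.ne'
      have h1 : ∀ M : ℕ, LibSS99.ee (fun i : Fin M => (ε : ℝ) * N2_y W (i : ℕ)) k =
          (k : ℝ)⁻¹ * ((-1) ^ (k + 1) * ∑ i ∈ range k, (-1) ^ i *
            LibSS99.ee (fun i : Fin M => (ε : ℝ) * N2_y W (i : ℕ)) i *
              ∑ l : Fin M, ((ε : ℝ) * N2_y W (l : ℕ)) ^ (k - i)) := by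
        intro M
        have h2 := LibSS99.newton (fun i : Fin M => (ε : ℝ) * N2_y W (i : ℕ)) k
        rw [N2_sum (fun i j => (-1) ^ i * LibSS99.ee (fun i : Fin M => (ε : ℝ) * N2_y W (i : ℕ)) i *
          ∑ l : Fin M, ((ε : ℝ) * N2_y W (l : ℕ)) ^ j) k] at h2
        rw [← h2, inv_mul_cancel_left₀ hk0]
      have h3 : (N2_E (fun j => ε ^ j * q (j * W)) k : ℝ) =
          (k : ℝ)⁻¹ * ((-1) ^ (k + 1) * ∑ i ∈ range k, (-1) ^ i *
            (N2_E (fun j => ε ^ j * q (j * W)) i : ℝ) *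
              ((ε : ℝ) ^ (k - i) * (q ((k - i) * W) : ℝ))) := by
        have h4 := N2_rec (fun j => ε ^ j * q (j * W)) k hk
        have h5 : (k : ℝ) * (N2_E (fun j => ε ^ j * q (j * W)) k : ℝ) =
            (-1) ^ (k + 1) * ∑ i ∈ range k, (-1) ^ i *
            (N2_E (fun j => ε ^ j * q (j * W)) i : ℝ) *
              ((ε : ℝ) ^ (k - i) * (q ((k - i) * W) : ℝ)) := by
          have h6 := congrArg (fun t : ℚ => (t : ℝ)) h4
          push_cast at h6
          exact h6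
        rw [← h5, inv_mul_cancel_left₀ hk0]
      rw [h3]
      simp_rw [h1]
      refine Filter.Tendsto.const_mul _ (Filter.Tendsto.const_mul _ ?_)
      refine tendsto_finsetSum _ fun i hi => ?_
      have hik := Finset.mem_range.1 hi
      refine Filter.Tendsto.mul ((ih i hik).const_mul _) ?_
      exact N2_power q hq W hW he (ε : ℝ) (k - i) (by omega)

private theorem N2_lower (W : ℕ) (ε : ℝ) (hε : ε * ε = 1) (k M : ℕ) (hkM : k ≤ M) :
    ∏ i : Fin k, N2_y W (i : ℕ) ≤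
      ε ^ k * LibSS99.ee (fun i : Fin M => ε * N2_y W (i : ℕ)) k := by
  have h1 : ε ^ k * LibSS99.ee (fun i : Fin M => ε * N2_y W (i : ℕ)) k =
      ∑ t ∈ powersetCard k (univ : Finset (Fin M)), ∏ i ∈ t, N2_y W (i : ℕ) := by
    rw [LibSS99.ee, Finset.mul_sum]
    refine Finset.sum_congr rfl fun t ht => ?_
    rw [Finset.prod_mul_distrib, Finset.prod_const, (Finset.mem_powersetCard.1 ht).2, ← mul_assoc,
      ← mul_pow, hε, one_pow, one_mul]
  rw [h1]
  have h2 : (univ : Finset (Fin k)).map (Fin.castLEEmb hkM) ∈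
      powersetCard k (univ : Finset (Fin M)) := by
    rw [Finset.mem_powersetCard]
    exact ⟨Finset.subset_univ _, by rw [Finset.card_map, Finset.card_univ, Fintype.card_fin]⟩
  have h3 := Finset.single_le_sum (f := fun t : Finset (Fin M) => ∏ i ∈ t, N2_y W (i : ℕ))
    (fun t _ => Finset.prod_nonneg fun i _ => (N2_y_pos W (i : ℕ)).le) h2
  refine le_trans (le_of_eq ?_) h3
  rw [Finset.prod_map]
  rfl

theorem exists_E (q : ℕ → ℚ) (hq : ∀ N, 2 ≤ N → Even N → (Pool.Agent.HF.zt [N] : ℝ) = (q N : ℝ) * Real.pi ^ N)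
    (W : ℕ) (hW : 2 ≤ W) (he : Even W) (ε : ℚ) (hε : ε = 1 ∨ ε = -1) :
    ∃ E : ℕ → ℚ, E 0 = 1 ∧ (∀ k, E k ≠ 0) ∧
      ∀ k : ℕ, 1 ≤ k → (k : ℚ) * E k = (-1) ^ (k + 1) * ∑ i ∈ range k, (-1) ^ i * E i * (ε ^ (k - i) * q ((k - i) * W)) := by
  refine ⟨N2_E (fun j => ε ^ j * q (j * W)), by rw [N2_E], fun k => ?_, fun k hk => N2_rec _ k hk⟩
  have hεε : (ε : ℝ) * (ε : ℝ) = 1 := by
    rcases hε with rfl | rfl <;> norm_num
  have h1 := (N2_tendsto q hq W hW he ε k).const_mul ((ε : ℝ) ^ k)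
  have h2 : ∏ i : Fin k, N2_y W (i : ℕ) ≤
      (ε : ℝ) ^ k * (N2_E (fun j => ε ^ j * q (j * W)) k : ℝ) := by
    refine ge_of_tendsto h1 ?_
    filter_upwards [Filter.eventually_ge_atTop k] with M hM
    exact N2_lower W (ε : ℝ) hεε k M hM
  have h3 : 0 < ∏ i : Fin k, N2_y W (i : ℕ) := Finset.prod_pos fun i _ => N2_y_pos W (i : ℕ)
  intro h0
  rw [h0, Rat.cast_zero, mul_zero] at h2
  exact absurd h3 (not_lt.2 h2)

end Pool.Agent.PD
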