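import Mathlib

/-!
[PD57 N3] the recursion has one solution (ONLY MATHLIB, short).

PLAN.  Strong induction on `k`: `k = 0` clear; for `k ≥ 1` multiply by `k ≠ 0` (`mul_left_cancel₀`), insert both recursions; the terms agree for `i < k` (induction, `hp` for `k - i`); `push_cast`.
-/

set_option autoImplicit false

namespace Pool.Agent.PD

open Finset

theorem eq_of_newton {F : Type*} [Field F] [CharZero F] (e p : ℕ → F) (E P : ℕ → ℚ) (K : ℕ) (he0 : e 0 = 1) (hE0 : E 0 = 1)
    (he : ∀ k : ℕ, 1 ≤ k → (k : F) * e k = (-1) ^ (k + 1) * ∑ i ∈ range k, (-1) ^ i * e i * p (k - i))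
    (hE : ∀ k : ℕ, 1 ≤ k → (k : ℚ) * E k = (-1) ^ (k + 1) * ∑ i ∈ range k, (-1) ^ i * E i * P (k - i))
    (hp : ∀ i, 1 ≤ i → i ≤ K → p i = (P i : F)) : ∀ k ≤ K, e k = (E k : F) := by
  intro k
  induction k using Nat.strong_induction_on with
  | _ k ih =>
    intro hk
    rcases Nat.eq_zero_or_pos k with rfl | hk0
    · rw [he0, hE0, Rat.cast_one]
    · have hk1 : (k : F) ≠ 0 := by exact_mod_cast hk0.ne'
      apply mul_left_cancel₀ hk1
      rw [he k hk0]
      have h2 : ((k : F) * ((E k : ℚ) : F)) = (((k : ℚ) * E k : ℚ) : F) := by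
        push_cast
        ring
      rw [h2, hE k hk0]
      push_cast
      congr 1
      refine Finset.sum_congr rfl fun i hi => ?_
      rw [Finset.mem_range] at hi
      rw [ih i hi (by omega), hp (k - i) (by omega) (by omega)]

end Pool.Agent.PD
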