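import Pool.Agent.LibPO57.Defs

/-!
[PD57 P0] arcs of powers of a word (lists only).
-/

set_option autoImplicit false

namespace Pool.Agent.PD

open Pool.Agent.PO

/-- The power of a word. -/
def rp (k : ℕ) (w : List Bool) : List Bool := (List.replicate k w).flatten

private theorem rp_add (k j : ℕ) (w : List Bool) : rp (k + j) w = rp k w ++ rp j w := by
  unfold rp
  rw [List.replicate_add, List.flatten_append]

private theorem rp_one (w : List Bool) : rp 1 w = w := by
  simp [rp]

private theorem rp_nil (k : ℕ) : rp k [] = [] := by
  simp [rp]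

private theorem length_rp (k : ℕ) (w : List Bool) : (rp k w).length = k * w.length := by
  simp [rp]

private theorem rp_rotate (k j : ℕ) (w : List Bool) : (rp k w).rotate (j * w.length) = rp k w := by
  induction j with
  | zero => simp
  | succ j ih =>
    rw [add_mul, one_mul, ← List.rotate_rotate, ih]
    cases k with
    | zero => simp [rp]
    | succ k =>
      have h1 : rp (k + 1) w = w ++ rp k w := by rw [Nat.add_comm, rp_add, rp_one]
      have h2 : rp (k + 1) w = rp k w ++ w := by rw [rp_add, rp_one]
      rw [h1, List.rotate_append_length_eq, ← h2, h1]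

private theorem arc_drop {w a : List Bool} {k : ℕ} (h : IsArc (rp k w) a) :
    ∃ r, r ≤ (rp (k + 1) w).length ∧ a <+: (rp (k + 1) w).drop r := by
  obtain ⟨i, hi⟩ := h
  rcases List.eq_nil_or_concat w with hw | ⟨w', x, hw⟩
  · refine ⟨0, Nat.zero_le _, ?_⟩
    rw [hw, rp_nil] at hi
    simp at hi
    rw [hi]
    exact List.nil_prefix
  · have hl : 0 < w.length := by rw [hw]; simp
    have hi2 : a <+: (rp k w).rotate (i % w.length) := by
      rw [← Nat.div_add_mod' i w.length, ← List.rotate_rotate, rp_rotate] at hi
      exact hi
    have hr : i % w.length < w.length := Nat.mod_lt _ hl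
    cases k with
    | zero =>
      refine ⟨0, Nat.zero_le _, ?_⟩
      simp [rp] at hi2
      rw [hi2]
      exact List.nil_prefix
    | succ k =>
      refine ⟨i % w.length, ?_, ?_⟩
      · rw [length_rp]
        have : 1 * w.length ≤ (k + 1 + 1) * w.length := Nat.mul_le_mul_right _ (by omega)
        omega
      · have hle : i % w.length ≤ (rp (k + 1) w).length := by
          rw [length_rp]
          have : 1 * w.length ≤ (k + 1) * w.length := Nat.mul_le_mul_right _ (by omega)
          omega
        rw [List.rotate_eq_drop_append_take hle] at hi2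
        refine hi2.trans ?_
        have h2 : rp (k + 1 + 1) w = rp (k + 1) w ++ w := by rw [rp_add, rp_one]
        rw [h2, List.drop_append_of_le_length hle]
        refine (List.prefix_append_right_inj _).2 ?_
        have h1 : rp (k + 1) w = w ++ rp k w := by rw [Nat.add_comm, rp_add, rp_one]
        rw [h1, List.take_append_of_le_length hr.le]
        exact List.take_prefix _ _

theorem isArc_rp {w a : List Bool} {k J : ℕ} (hkJ : k ≤ J) (h : IsArc (rp k w) a) : IsArc (rp J w) a := by
  rcases Nat.lt_or_ge k J with hlt | hge
  · obtain ⟨r, hr, ha⟩ := arc_drop h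
    obtain ⟨j, rfl⟩ : ∃ j, J = (k + 1) + j := ⟨J - (k + 1), by omega⟩
    refine ⟨r, ?_⟩
    have hle : r ≤ (rp (k + 1 + j) w).length := by
      rw [rp_add, List.length_append]; omega
    rw [List.rotate_eq_drop_append_take hle]
    refine ha.trans (List.IsPrefix.trans ?_ (List.prefix_append _ _))
    rw [rp_add (k + 1) j, List.drop_append_of_le_length hr]
    exact List.prefix_append _ _
  · obtain rfl : k = J := le_antisymm hkJ hge
    exact h

theorem infix_of_isArc {w a : List Bool} {J : ℕ} (h : IsArc (rp J w) a) : a <:+: rp (J + 1) w := by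
  obtain ⟨r, -, ha⟩ := arc_drop h
  exact ha.isInfix.trans (List.drop_suffix _ _).isInfix

end Pool.Agent.PD
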