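import Pool.Agent.LibPO57.Main
import Pool.Agent.LibPO57.H1
import Pool.Agent.LibPD57.N1
import Pool.Agent.LibPD57.N2
import Pool.Agent.LibPD57.N3
import Pool.Agent.LibPD57.P0

/-!
[PD57 A1] the sums of the principal minors of `A_w` are nonzero rationals.

PLAN.  `newton_minors` for `A = Am L z w`; `A ^ i = Am L z (rp i w)` (induction, `Am_append`, `List.replicate_succ`), and for `1 ≤ i ≤ k`: `trace_Am` for `rp i w` (`≠ []`; `2 |rp i w| < L`; arcs of `rp i w` are arcs of `rp k w`:
`isArc_rp`), `wt (rp i w) = i wt w`, `|rp i w| = i |w|`, so with `hq` for `N = i wt w` (even, `≥ 2`): `trace = (-1)^(i |w|) q (i wt w)` as in `trace_even` (LibPO57/Main).  With `ε = (-1)^|w|`, `P i = ε ^ i * q (i * wt w)`: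
`exists_E` and `eq_of_newton`.
-/

set_option autoImplicit false

namespace Pool.Agent.PD

open Finset Pool.Agent.PO

private theorem A1_rp_succ (i : ℕ) (w : List Bool) : rp (i + 1) w = w ++ rp i w := by
  simp [rp, List.replicate_succ]

private theorem A1_length (i : ℕ) (w : List Bool) : (rp i w).length = i * w.length := by
  induction i with
  | zero => simp [rp]
  | succ i ih => rw [A1_rp_succ, List.length_append, ih]; ring

private theorem A1_wt (i : ℕ) (w : List Bool) : wt (rp i w) = i * wt w := by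
  induction i with
  | zero => simp [rp, wt]
  | succ i ih => rw [A1_rp_succ, wt_append, ih]; ring

private theorem A1_Am (i L : ℕ) (z : List Bool → ℂ) (w : List Bool) :
    Am L z (rp i w) = Am L z w ^ i := by
  induction i with
  | zero => simp [rp]
  | succ i ih => rw [A1_rp_succ, Am_append, ih, pow_succ']

theorem minors_rat (k : ℕ) (L : ℕ) (z : List Bool → ℂ) (w : List Bool) (hw : w ≠ []) (he : Even (wt w)) (hL : 2 * (k * w.length) < L)
    (hz : ∀ a, a ≠ [] → IsArc (rp k w) a → z a = (ze a : ℂ)) :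
    ∃ E : ℕ → ℚ, ∀ i ≤ k, E i ≠ 0 ∧
      (∑ s ∈ (Finset.univ : Finset (IL L)).powersetCard i, ((Am L z w).submatrix (Subtype.val : s → IL L) (Subtype.val : s → IL L)).det) = ((E i : ℚ) : ℂ) := by
  obtain ⟨q, hq⟩ := exists_q
  have hW2 : 2 ≤ wt w := by
    cases w with
    | nil => exact absurd rfl hw
    | cons x u => rw [wt_cons]; have := two_le_ltr x; omega
  have hε : ((-1 : ℚ) ^ w.length) = 1 ∨ ((-1 : ℚ) ^ w.length) = -1 := neg_one_pow_eq_or ℚ _
  obtain ⟨E, hE0, hEne, hErec⟩ := exists_E q (fun N h1 h2 => (hq N h1 h2).1) (wt w) hW2 he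
    ((-1 : ℚ) ^ w.length) hε
  obtain ⟨e, he0, hesum, herec⟩ := newton_minors (Am L z w)
  have htr : ∀ i, 1 ≤ i → i ≤ k → (Am L z w ^ i).trace =
      ((((-1 : ℚ) ^ w.length) ^ i * q (i * wt w) : ℚ) : ℂ) := by
    intro i hi1 hik
    have hlen := A1_length i w
    have hne : rp i w ≠ [] := by
      intro h0
      have h1 : (rp i w).length = 0 := by rw [h0]; rfl
      rw [hlen] at h1
      have h2 : 0 < w.length := List.length_pos_of_ne_nil hw
      have h3 : 0 < i * w.length := Nat.mul_pos (by omega) h2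
      omega
    have hL' : 2 * (rp i w).length < L := by
      rw [hlen]
      have : i * w.length ≤ k * w.length := Nat.mul_le_mul_right _ hik
      omega
    have h1 := trace_Am L z (rp i w) hne hL' (fun a ha h => hz a ha (isArc_rp hik h))
    rw [A1_Am, hlen, A1_wt] at h1
    have hN2 : 2 ≤ i * wt w := by nlinarith
    have hNe : Even (i * wt w) := he.mul_left i
    rw [h1, (hq _ hN2 hNe).1]
    have hpi : (Real.pi : ℂ) ^ (i * wt w) ≠ 0 := pow_ne_zero _ (by exact_mod_cast Real.pi_ne_zero)
    push_cast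
    rw [mul_assoc, mul_assoc, mul_inv_cancel₀ hpi, mul_one, ← pow_mul, mul_comm w.length i]
  have hfin := eq_of_newton e (fun i => (Am L z w ^ i).trace) E
    (fun i => ((-1 : ℚ) ^ w.length) ^ i * q (i * wt w)) k he0 hE0 herec hErec htr
  exact ⟨E, fun i hi => ⟨hEne i, by rw [← hesum, hfin i hi]⟩⟩

end Pool.Agent.PD
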