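import Pool.Agent.LibPO57.O6

/-!
[PD57 P2] minors of the operator of any word, all lengths (template: `Mn_Am_one` in LibPO57/O6.lean, the same induction for `j + 1` instead of `1`).

PLAN.  Induction on `w`: `w = []`: `Am_nil`, `Mn_one_le`.  `w = x :: w'`: `Am_cons`, `Mn_mul_le`, `Mn_Tm_le` with `C = Set.univ` and the private lemma `O6_hzB` of O6 (copy it).
-/

set_option autoImplicit false

namespace Pool.Agent.PD

open Finset Pool.Agent.PO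

private theorem P2_pos {v : AbsoluteValue ℂ ℝ} {c : Bool → ℝ} (hc : ∀ x, 0 < c x) {b : ℝ}
    (hb : 1 ≤ b) (x : Bool) (u : List Bool) :
    0 ≤ b * (v (Real.pi : ℂ) ^ ltr x * gw c u) :=
  mul_nonneg (by linarith) (mul_nonneg (pow_nonneg (v.nonneg _) _) (gw_pos hc u).le)

private theorem P2_far {v : AbsoluteValue ℂ ℝ} {c : Bool → ℝ} {θ : ℝ} {T : Set (List Bool)}
    (hc : ∀ x, 0 < c x)
    (hθ1 : θ ≤ 1) (hθ : ∀ x, c x ≤ θ * v (Real.pi : ℂ) ^ ltr x)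
    (hT : ∀ w, w ∉ T → v (ze w : ℂ) ≤ gw c w) {b : ℝ} (hb : 1 ≤ b) (x : Bool) (u : List Bool)
    (hxu : x :: u ∉ T) : v (ze (x :: u) : ℂ) ≤ b * (v (Real.pi : ℂ) ^ ltr x * gw c u) := by
  refine (hT _ hxu).trans ?_
  rw [gw_cons]
  have hg := gw_pos hc u
  have hp : 0 ≤ v (Real.pi : ℂ) ^ ltr x := pow_nonneg (v.nonneg _) _
  have h1 : c x ≤ b * v (Real.pi : ℂ) ^ ltr x := by
    refine (hθ x).trans ?_
    exact mul_le_mul_of_nonneg_right (hθ1.trans hb) hp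
  calc c x * gw c u ≤ (b * v (Real.pi : ℂ) ^ ltr x) * gw c u :=
        mul_le_mul_of_nonneg_right h1 hg.le
    _ = b * (v (Real.pi : ℂ) ^ ltr x * gw c u) := by ring

private theorem P2_hzB {v : AbsoluteValue ℂ ℝ} {c : Bool → ℝ} {θ b1 : ℝ} {T : Set (List Bool)}
    {m1 : ℕ} (hc : ∀ x, 0 < c x)
    (hθ1 : θ ≤ 1) (hθ : ∀ x, c x ≤ θ * v (Real.pi : ℂ) ^ ltr x)
    (hT : ∀ w, w ∉ T → v (ze w : ℂ) ≤ gw c w) (hb1 : 1 ≤ b1)
    (h1 : ∀ x u, (x :: u : List Bool).length ≤ m1 → v (ze (x :: u) : ℂ) ≤ b1 * (v (Real.pi : ℂ) ^ ltr x * gw c u))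
    (x : Bool) (u : List Bool) :
    v (zc T m1 (x :: u)) ≤ b1 * (v (Real.pi : ℂ) ^ ltr x * gw c u) := by
  unfold zc
  by_cases h : x :: u ∈ T ∧ m1 < (x :: u).length
  · rw [if_pos h, map_zero]
    exact P2_pos hc hb1 x u
  · rw [if_neg h]
    by_cases hl : (x :: u).length ≤ m1
    · exact h1 x u hl
    · exact P2_far hc hθ1 hθ hT hb1 x u fun hx => h ⟨hx, by omega⟩

theorem Mn_Am_all {v : AbsoluteValue ℂ ℝ} {L : ℕ} [Nonempty (IL L)] {c : Bool → ℝ} {θ b1 : ℝ} {T : Set (List Bool)} {m1 : ℕ}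
    (hv : Ult v) (hc : ∀ x, 0 < c x) (hθ0 : 0 ≤ θ) (hθ1 : θ ≤ 1)
    (hθ : ∀ x, c x ≤ θ * v (Real.pi : ℂ) ^ ltr x) (hT : ∀ w, w ∉ T → v (ze w : ℂ) ≤ gw c w) (hb1 : 1 ≤ b1)
    (h1 : ∀ x u, (x :: u : List Bool).length ≤ m1 → v (ze (x :: u) : ℂ) ≤ b1 * (v (Real.pi : ℂ) ^ ltr x * gw c u))
    (w : List Bool) (j : ℕ) :
    Mn v (gI c) (j + 1) (Am L (zc T m1) w) ≤ (b1 * θ ^ j) ^ w.length := by
  have hg : ∀ i : IL L, 0 < gI c i := fun i => gw_pos hc _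
  induction w with
  | nil =>
    rw [Am_nil]
    simpa using Mn_one_le (v := v) (g := gI c) (I := IL L) (F := ℂ) hv hg (j + 1)
  | cons x w ih =>
    rw [Am_cons]
    refine (Mn_mul_le hv hg (j + 1) _ _).trans ?_
    have hn := Mn_nonneg (v := v) hg (j + 1) (Am L (zc T m1) w)
    have hT' := Mn_Tm_le (L := L) hv hc hθ0 hθ1 hθ hb1 (zc T m1) x Set.univ
      (fun u _ => P2_hzB hc hθ1 hθ hT hb1 h1 x u.1) j
    simp only [Set.mem_univ, if_true] at hT'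
    rw [List.length_cons, pow_succ' (b1 * θ ^ j) w.length]
    exact mul_le_mul hT' ih hn (mul_nonneg (by linarith) (pow_nonneg hθ0 _))

end Pool.Agent.PD
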