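import Pool.Agent.LibPO57.LU
import Pool.Agent.LibPO57.LM

/-!
[PD57 P3] the sum of the principal minors is bounded by `Mn`.

PLAN.  `Ult.sum_le` (LibPO57/LU or Basic: see `Ult.sum_le` used in LibPO57/NW.lean) with the bound `Mn v g k A ≥ 0` (`Mn_nonneg`); each `s` with `|s| = k`: `e : Fin k ≃ s` (`Finset.equivFinOfCardEq` / `(s.equivFin).symm` with a cast),
`det (A.submatrix val val) = det (A.submatrix (val ∘ e) (val ∘ e))` (`Matrix.det_submatrix_equiv_self`), and `wd v g A (val ∘ e) (val ∘ e) = v (det ..)` because the weights cancel (`mul_div_assoc`, `div_self`, `Finset.prod_pos`);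
`wd_le_Mn` (LibPO57; grep the name of the lemma `wd v g M a c ≤ Mn v g j M`, it is `le_ciSup` over a finite type).
-/

set_option autoImplicit false

namespace Pool.Agent.PD

open Finset Pool.Agent.PO

theorem minors_le_Mn {F I : Type} [Field F] [Fintype I] [DecidableEq I] [Nonempty I] {v : AbsoluteValue F ℝ} (hv : Ult v)
    {g : I → ℝ} (hg : ∀ i, 0 < g i) (A : Matrix I I F) (k : ℕ) :
    v (∑ s ∈ (Finset.univ : Finset I).powersetCard k, (A.submatrix (Subtype.val : s → I) (Subtype.val : s → I)).det) ≤ Mn v g k A := by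
  refine hv.sum_le _ _ (Mn_nonneg hg k A) fun s hs => ?_
  have hcard : s.card = k := (Finset.mem_powersetCard.1 hs).2
  let e : Fin k ≃ s := (Finset.equivFinOfCardEq hcard).symm
  have h1 : (A.submatrix (Subtype.val : s → I) (Subtype.val : s → I)).det =
      (A.submatrix (fun i => (e i : I)) (fun i => (e i : I))).det := by
    have h2 := Matrix.det_submatrix_equiv_self e
      (A.submatrix (Subtype.val : s → I) (Subtype.val : s → I))
    rw [← h2, Matrix.submatrix_submatrix]
    rfl
  have h3 := wd_le_Mn (v := v) (g := g) k A (fun i => (e i : I)) (fun i => (e i : I))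
  unfold wd at h3
  have h4 : 0 < ∏ i, g ((fun i => (e i : I)) i) := Finset.prod_pos fun i _ => hg _
  rw [mul_div_assoc, div_self h4.ne', mul_one] at h3
  rw [h1]
  exact h3

end Pool.Agent.PD
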