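import Pool.Agent.LibPD57.A1
import Pool.Agent.LibPD57.P2
import Pool.Agent.LibPD57.P3

/-!
[PD57 A2] Theorem P: every periodic word contains long words of `T`, uniformly.

PLAN of `periodic_even`.  `θ` as in `main_bernoulli` (LibPO57/Final.lean: `θ = max (c false / vπ^2) (c true / vπ^3)`, `0 < θ < 1`, `c x ≤ θ v(π)^(ltr x)`), `T = {w | gw c w < v (ze w)}`, `b1` from `exists_b v _ c hc 1 m`
(`1 ≤ b1`, bound for all `x :: u` of length `≤ m`).  Choose `J ≥ 1` with `b1 θ ^ (J - 1) < 1` (`exists_pow_lt_of_lt_one`).  Suppose that no arc of `rp J w` longer than `m` is in `T`.  `L = 2 (J |w|) + 1`, `z = zc T m`: `z a = ze a` for the arcs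
of `rp J w` (definition of `zc`).  `minors_rat` (`k = i = J`): the sum of the principal `J`-minors is a nonzero rational, absolute value `1` (`Ult.rat`, LibPO57), but `minors_le_Mn` and `Mn_Am_all` (`j = J - 1`) bound it by
`(b1 θ^(J-1))^|w| < 1` (`pow_lt_one₀`, `|w| ≥ 1`).
PLAN of `periodic`.  `2 J`: apply `periodic_even` to `w ++ w` (`wt` even, nonempty), `rp J (w ++ w) = rp (2 J) w`.
-/

set_option autoImplicit false

namespace Pool.Agent.PD

open Finset Pool.Agent.PO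

private theorem rp_double (w : List Bool) (J : ℕ) : rp J (w ++ w) = rp (2 * J) w := by
  unfold rp
  induction J with
  | zero => rfl
  | succ J ih =>
    have h2 : 2 * (J + 1) = (2 * J + 1) + 1 := by ring
    rw [h2, List.replicate_succ, List.replicate_succ, List.replicate_succ, List.flatten_cons,
      List.flatten_cons, List.flatten_cons, ih, List.append_assoc]

theorem periodic_even {v : AbsoluteValue ℂ ℝ} (hv : Ult v) (c : Bool → ℝ) (hc : ∀ x, 0 < c x)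
    (hcπ : ∀ x, c x < v (Real.pi : ℂ) ^ ltr x) (m : ℕ) :
    ∃ J : ℕ, 1 ≤ J ∧ ∀ w : List Bool, w ≠ [] → Even (wt w) →
      ∃ a, IsArc (rp J w) a ∧ m < a.length ∧ gw c a < v (ze a : ℂ) := by
  have hπ0 : 0 < v (Real.pi : ℂ) := v.pos (by exact_mod_cast Real.pi_ne_zero)
  have hπx : ∀ x, 0 < v (Real.pi : ℂ) ^ ltr x := fun x => pow_pos hπ0 _
  obtain ⟨θ, hθ0, hθ1, hθ⟩ : ∃ θ : ℝ, 0 < θ ∧ θ < 1 ∧ ∀ x, c x ≤ θ * v (Real.pi : ℂ) ^ ltr x := by
    refine ⟨max (c false / v (Real.pi : ℂ) ^ ltr false) (c true / v (Real.pi : ℂ) ^ ltr true),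
      ?_, ?_, ?_⟩
    · exact lt_max_of_lt_left (div_pos (hc _) (hπx _))
    · exact max_lt ((div_lt_one (hπx _)).2 (hcπ _)) ((div_lt_one (hπx _)).2 (hcπ _))
    · intro x
      rw [← div_le_iff₀ (hπx x)]
      cases x
      · exact le_max_left _ _
      · exact le_max_right _ _
  obtain ⟨b1, hb11, -, hb1⟩ := exists_b v hπ0.ne' c hc 1 m
  have hb10 : 0 < b1 := lt_of_lt_of_le one_pos hb11
  obtain ⟨n, hn⟩ := exists_pow_lt_of_lt_one (div_pos one_pos hb10) hθ1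
  have hlt : b1 * θ ^ n < 1 := by
    rw [lt_div_iff₀ hb10] at hn
    linarith
  refine ⟨n + 1, by omega, ?_⟩
  intro w hw he
  by_contra hcon
  push Not at hcon
  have hlen : 0 < w.length := List.length_pos_iff.mpr hw
  set T : Set (List Bool) := {w : List Bool | gw c w < v (ze w : ℂ)} with hTdef
  have hnotT : ∀ w, w ∉ T → v (ze w : ℂ) ≤ gw c w := fun w hw => not_lt.1 hw
  obtain ⟨L, hL⟩ : ∃ L : ℕ, L = 2 * ((n + 1) * w.length) + 1 := ⟨_, rfl⟩
  haveI : Nonempty (IL L) := ⟨⟨[], by simp [hL]⟩⟩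
  have hg : ∀ u : IL L, 0 < gI c u := fun u => gw_pos hc u.1
  have hz : ∀ a, a ≠ [] → IsArc (rp (n + 1) w) a → zc T m a = (ze a : ℂ) := by
    intro a _ ha
    unfold zc
    rw [if_neg]
    rintro ⟨h1, h2⟩
    exact absurd h1 (not_lt.mpr (hcon a ha h2))
  obtain ⟨E, hE⟩ := minors_rat (n + 1) L (zc T m) w hw he (by omega) hz
  obtain ⟨hE0, hEs⟩ := hE (n + 1) le_rfl
  have h1 : v ((E (n + 1) : ℚ) : ℂ) = 1 := hv.rat hE0
  have h2 := minors_le_Mn hv hg (Am L (zc T m) w) (n + 1)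
  rw [hEs, h1] at h2
  have h3 := Mn_Am_all (L := L) hv hc hθ0.le hθ1.le hθ hnotT hb11 hb1 w n
  have h4 : (b1 * θ ^ n) ^ w.length < 1 := pow_lt_one₀ (by positivity) hlt hlen.ne'
  exact absurd (h2.trans h3) (not_le.mpr h4)

theorem periodic {v : AbsoluteValue ℂ ℝ} (hv : Ult v) (c : Bool → ℝ) (hc : ∀ x, 0 < c x)
    (hcπ : ∀ x, c x < v (Real.pi : ℂ) ^ ltr x) (m : ℕ) :
    ∃ J : ℕ, 1 ≤ J ∧ ∀ w : List Bool, w ≠ [] → ∃ a, a <:+: rp J w ∧ m < a.length ∧ gw c a < v (ze a : ℂ) := by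
  obtain ⟨J, hJ1, hJ⟩ := periodic_even hv c hc hcπ m
  refine ⟨2 * J + 1, by omega, ?_⟩
  intro w hw
  have hne : w ++ w ≠ [] := by
    intro h
    exact hw (List.append_eq_nil_iff.mp h).1
  have hev : Even (wt (w ++ w)) := by
    rw [wt_append]
    exact ⟨wt w, rfl⟩
  obtain ⟨a, ha, hma, hga⟩ := hJ (w ++ w) hne hev
  rw [rp_double] at ha
  exact ⟨a, infix_of_isArc ha, hma, hga⟩

end Pool.Agent.PD
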