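import Pool.Agent.LibPD57.D0
import Pool.Agent.LibPO57.LM
import Pool.Agent.LibPO57.LB

/-!
[PD57 D1] minors of the operator of a word with `n` letters lie in `V ^ n`.

PLAN.  Induction on `w`.  `w = []`: `Am_nil`, a minor of the identity matrix is an integer (`Matrix.det_apply`, entries `0, 1`; or `RingHom.map_det` from `ℤ`), so it lies in `V ^ 0 = 1` (`pow_zero`, `Submodule.mem_one`: `algebraMap`).
`w = x :: w'`: `Am_cons`; `j! det ((A B).submatrix a c) = ∑_{d : Fin j → I} det (A.submatrix a d) det (B.submatrix d c)` (it is proved inside LibPO57/LM.lean for `Mn_mul_le`, see there; copy it if it is private);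
`π^(j wt (x :: w')) = π^(j ltr x) π^(j wt w')`; each term is in `V * V ^ |w'| = V ^ (|w'| + 1)` (`pow_succ'`, `Submodule.mul_mem_mul`, `letter_minor_mem`), the sum too; divide by `j!` (a nonzero element of `K`:
`Submodule.smul_mem` with `((j ! : K)⁻¹)`).
-/

set_option autoImplicit false

namespace Pool.Agent.PD

open Finset Pool.Agent.PO

theorem minor_mem {K : IntermediateField ℚ ℂ} (V : Submodule K ℂ) (h1 : (1 : ℂ) ∈ V) (L : ℕ) (z : List Bool → ℂ)
    (hz : ∀ u, z u ∈ V) (w : List Bool) (j : ℕ) (a c : Fin j → IL L) :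
    (Real.pi : ℂ) ^ (j * wt w) * ((Am L z w).submatrix a c).det ∈ V ^ w.length := by
  induction w generalizing a c with
  | nil =>
    rw [Am_nil, wt_nil, mul_zero, pow_zero, one_mul, List.length_nil, pow_zero, Submodule.mem_one]
    refine ⟨((1 : Matrix (IL L) (IL L) K).submatrix a c).det, ?_⟩
    rw [RingHom.map_det]
    congr 1
    ext i k
    rw [RingHom.mapMatrix_apply, Matrix.map_apply, Matrix.submatrix_apply, Matrix.submatrix_apply,
      Matrix.one_apply, Matrix.one_apply]
    by_cases h : a i = c k
    · rw [if_pos h, if_pos h, map_one]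
    · rw [if_neg h, if_neg h, map_zero]
  | cons x w ih =>
    have hj : ((j.factorial : ℕ) : ℂ) ≠ 0 := by exact_mod_cast j.factorial_ne_zero
    have hjK : ((j.factorial : ℕ) : K) ≠ 0 := by exact_mod_cast j.factorial_ne_zero
    rw [Am_cons, wt_cons, List.length_cons]
    have h := factorial_mul_det (Tm L z x) (Am L z w) j a c
    have h2 : ((j.factorial : ℕ) : ℂ) * ((Real.pi : ℂ) ^ (j * (ltr x + wt w)) *
        ((Tm L z x * Am L z w).submatrix a c).det) =
        ∑ f : Fin j → IL L, ((Real.pi : ℂ) ^ (j * ltr x) * ((Tm L z x).submatrix a f).det) *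
          ((Real.pi : ℂ) ^ (j * wt w) * ((Am L z w).submatrix f c).det) := by
      calc ((j.factorial : ℕ) : ℂ) * ((Real.pi : ℂ) ^ (j * (ltr x + wt w)) *
          ((Tm L z x * Am L z w).submatrix a c).det)
          = (Real.pi : ℂ) ^ (j * (ltr x + wt w)) * (((j.factorial : ℕ) : ℂ) *
            ((Tm L z x * Am L z w).submatrix a c).det) := by ring
        _ = _ := by
          rw [h, Finset.mul_sum]
          refine Finset.sum_congr rfl fun f _ => ?_
          rw [mul_add, pow_add]
          ring
    have h3 : ((j.factorial : ℕ) : ℂ) * ((Real.pi : ℂ) ^ (j * (ltr x + wt w)) *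
        ((Tm L z x * Am L z w).submatrix a c).det) ∈ V ^ (w.length + 1) := by
      rw [h2, pow_succ']
      exact Submodule.sum_mem _ fun f _ =>
        Submodule.mul_mem_mul (letter_minor_mem V h1 L z hz x j a f) (ih f c)
    have h4 := Submodule.smul_mem (V ^ (w.length + 1)) (((j.factorial : ℕ) : K)⁻¹) h3
    rw [Algebra.smul_def, map_inv₀, map_natCast, inv_mul_cancel_left₀ hj] at h4
    exact h4

end Pool.Agent.PD
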