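import Mathlib

/-!
[PD57 D2] the dimension of a power of a subspace (ONLY MATHLIB).

PLAN.  `v = finrank K V`, basis `b : Fin v → V` (`Module.finBasis`), `V = span (range fun i => (b i : F))`.  `V ^ n = span (S ^ n)`-type statement (`Submodule.span_pow`), and `S ^ n` (pointwise power of the set `S = range ..`) is contained in
the image of `Sym (Fin v) n` under `m ↦ (m.1.map (fun i => (b i : F))).prod` (induction on `n`, or `Set.mem_pow`: an element of `S ^ n` is a product of `n` elements of `S` (`Set.mem_pow`: `∃ f : Fin n → S, (List.ofFn ..).prod = a`)).  So `V ^ n` is spanned by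
the image of a finite type with `Sym.card_sym_eq_multichoose` elements: `finrank_range_le_card` / `finrank_span_le_card` / `Set.finrank`.
-/

set_option autoImplicit false

namespace Pool.Agent.PD

theorem D2_pow_le {K F : Type*} [Field K] [Field F] [Algebra K F] (V : Submodule K F) {v : ℕ}
    (b : Fin v → F) (hb : V = Submodule.span K (Set.range b)) (n : ℕ) :
    V ^ n ≤ Submodule.span K
      (Set.range fun m : Sym (Fin v) n => ((m : Multiset (Fin v)).map b).prod) := by
  induction n with
  | zero =>
    rw [pow_zero, Submodule.one_eq_span, Submodule.span_le]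
    rintro _ rfl
    apply Submodule.subset_span
    exact ⟨Sym.nil, by simp⟩
  | succ n ih =>
    rw [pow_succ]
    refine (mul_le_mul' ih le_rfl).trans ?_
    conv_lhs => rw [hb]
    rw [Submodule.span_mul_span, Submodule.span_le]
    rintro _ ⟨_, ⟨m, rfl⟩, _, ⟨i, rfl⟩, rfl⟩
    apply Submodule.subset_span
    refine ⟨i ::ₛ m, ?_⟩
    simp only [Sym.coe_cons, Multiset.map_cons, Multiset.prod_cons]
    exact mul_comm _ _

theorem finrank_pow_le {K F : Type*} [Field K] [Field F] [Algebra K F] (V : Submodule K F) [FiniteDimensional K V] (n : ℕ) :
    Module.finrank K (V ^ n : Submodule K F) ≤ (Module.finrank K V).multichoose n := by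
  classical
  let B := Module.finBasis K V
  have hb : V = Submodule.span K (Set.range fun i => ((B i : V) : F)) := by
    have h1 : Set.range (fun i => ((B i : V) : F)) = V.subtype '' Set.range B := by
      rw [← Set.range_comp]
      rfl
    rw [h1, Submodule.span_image, B.span_eq, Submodule.map_top, Submodule.range_subtype]
  have h2 := D2_pow_le V (fun i => ((B i : V) : F)) hb n
  have hfd : FiniteDimensional K (Submodule.span K (Set.range fun m : Sym (Fin (Module.finrank K V)) n =>
      ((m : Multiset (Fin (Module.finrank K V))).map fun i => ((B i : V) : F)).prod)) :=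
    FiniteDimensional.span_of_finite K (Set.finite_range _)
  have h3 := Submodule.finrank_mono h2
  refine h3.trans ?_
  refine (finrank_range_le_card (R := K) _).trans ?_
  rw [Sym.card_sym_eq_multichoose, Fintype.card_fin]

/-- With `1` adjoined. -/
theorem finrank_pow_le' {K F : Type*} [Field K] [Field F] [Algebra K F] (V : Submodule K F) [FiniteDimensional K V] (n : ℕ) :
    Module.finrank K ((V ⊔ Submodule.span K {(1 : F)}) ^ n : Submodule K F) ≤ (Module.finrank K V + n).choose n := by
  -- `finrank (V ⊔ span {1}) ≤ finrank V + 1` (`Submodule.finrank_add_le_finrank_add_finrank`, `finrank_span_singleton`/`finrank_span_le_card`), `Nat.multichoose_eq`: `multichoose a n = choose (a + n - 1) n`, monotone in `a`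
  refine (finrank_pow_le _ n).trans ?_
  rw [Nat.multichoose_eq]
  apply Nat.choose_le_choose
  have h1 := Submodule.finrank_add_le_finrank_add_finrank V (Submodule.span K {(1 : F)})
  have h2 : Module.finrank K (Submodule.span K {(1 : F)}) = 1 := finrank_span_singleton one_ne_zero
  omega

end Pool.Agent.PD
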