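import Mathlib

/-!
[PD57 D3] many powers of a transcendental number (ONLY MATHLIB, short).

PLAN.  `fun i : Fin (k + 1) => x ^ (W * i)` is linearly independent over `K` (`x ^ W` is transcendental: `Transcendental.pow`; powers of a transcendental number are linearly independent: `Transcendental.linearIndependent_...`, or
`AlgebraicIndependent`/`LinearIndependent` of `Polynomial` monomials mapped by the injective `aeval`: `transcendental_iff_injective`); they lie in the finite-dimensional space `V`: `LinearIndependent.fintype_card_le_finrank` for the family in `V`.
-/

set_option autoImplicit false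

namespace Pool.Agent.PD

theorem card_le_of_powers {K F : Type*} [Field K] [Field F] [Algebra K F] (x : F) (hx : Transcendental K x) (W : ℕ) (hW : 1 ≤ W)
    (V : Submodule K F) [FiniteDimensional K V] (k : ℕ) (h : ∀ i ≤ k, x ^ (W * i) ∈ V) : k + 1 ≤ Module.finrank K V := by
  have hy : Transcendental K (x ^ W) := hx.pow (by omega)
  have hinj : Function.Injective (Polynomial.aeval (R := K) (x ^ W)) :=
    transcendental_iff_injective.1 hy
  have h1 := (Polynomial.basisMonomials K).linearIndependent
  have h2 : LinearIndependent K
      ((Polynomial.aeval (R := K) (x ^ W)).toLinearMap ∘ (Polynomial.basisMonomials K)) :=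
    h1.map' _ (LinearMap.ker_eq_bot.2 hinj)
  have h3 := h2.comp (fun i : Fin (k + 1) => (i : ℕ)) Fin.val_injective
  let f : Fin (k + 1) → V := fun i => ⟨x ^ (W * (i : ℕ)), h i (Nat.lt_succ_iff.1 i.2)⟩
  have h4 : LinearIndependent K f := by
    apply LinearIndependent.of_comp V.subtype
    convert h3 using 1
    funext i
    simp only [Function.comp_apply, Polynomial.coe_basisMonomials, AlgHom.toLinearMap_apply,
      Polynomial.aeval_monomial, map_one, one_mul, Submodule.subtype_apply, f]
    rw [pow_mul]
  have h5 := h4.fintype_card_le_finrank
  rwa [Fintype.card_fin] at h5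

end Pool.Agent.PD
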