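import Pool.Agent.LibPD57.A1
import Pool.Agent.LibPD57.D1
import Pool.Agent.LibPD57.D2
import Pool.Agent.LibPD57.D3

/-!
[PD57 A3] Theorem D: the dimension bound.

PLAN.  `n = |w|`, `V' = V ⊔ span {1}`, `L = 2 (k n) + 1`, `z a = if a ≠ [] ∧ IsArc (rp k w) a then ze a else 0` (classical): all values in `V'`: a nonempty arc of `rp k w` has length `≤ k n` and is an infix of `rp (k + 1) w` (`infix_of_isArc`), so its value is in `V`.
`minors_rat`: for `i ≤ k` the sum of the principal `i`-minors of `Am L z w` is a nonzero rational `E i`; multiplied by `π^(i wt w)` it is in `V' ^ n`: every principal minor on `s`, `|s| = i`, is `det` of a submatrix with `a = c : Fin i → IL L`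
(`Matrix.det_submatrix_equiv_self`), `minor_mem`, `Submodule.sum_mem`.  So `π^(i wt w) ∈ V' ^ n` (multiply by `(E i)⁻¹ ∈ K`).  `card_le_of_powers` (`W = wt w ≥ 1`, `V' ^ n` finite-dimensional: `Submodule.FG.pow`, see LibPO57/Res4 `hW'fin`) and
`finrank_pow_le'`.
-/

set_option autoImplicit false

namespace Pool.Agent.PD

open Finset Pool.Agent.PO

private theorem a3_wt_pos (w : List Bool) (hw : w ≠ []) : 1 ≤ wt w := by
  cases w with
  | nil => exact absurd rfl hw
  | cons x w =>
    unfold wt
    rw [List.map_cons, List.sum_cons]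
    have : 2 ≤ ltr x := by unfold ltr; split <;> omega
    omega

private theorem a3_length_rp (k : ℕ) (w : List Bool) : (rp k w).length = k * w.length := by
  unfold rp
  simp

theorem dim_bound (K : IntermediateField ℚ ℂ) (hπ : Transcendental K (Real.pi : ℂ)) (V : Submodule K ℂ) (hV : FiniteDimensional K V)
    (w : List Bool) (hw : w ≠ []) (he : Even (wt w)) (k : ℕ)
    (h : ∀ a, a ≠ [] → a <:+: rp (k + 1) w → a.length ≤ k * w.length → (ze a : ℂ) ∈ V) :
    k + 1 ≤ (Module.finrank K V + w.length).choose w.length := by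
  classical
  have := hV
  set V' : Submodule K ℂ := V ⊔ Submodule.span K {(1 : ℂ)} with hV'
  have h1 : (1 : ℂ) ∈ V' := Submodule.mem_sup_right (Submodule.subset_span rfl)
  have hVfin : FiniteDimensional K V' := Submodule.finiteDimensional_sup _ _
  have hVn : FiniteDimensional K (V' ^ w.length : Submodule K ℂ) :=
    (Submodule.fg_iff_finiteDimensional _).1 (((Submodule.fg_iff_finiteDimensional V').2 hVfin).pow w.length)
  obtain ⟨z, hz⟩ : ∃ z : List Bool → ℂ, z = fun a => if a ≠ [] ∧ IsArc (rp k w) a then (ze a : ℂ) else 0 := ⟨_, rfl⟩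
  have hzV : ∀ u, z u ∈ V' := by
    intro u
    rw [hz]
    show (if u ≠ [] ∧ IsArc (rp k w) u then (ze u : ℂ) else 0) ∈ V'
    split
    · rename_i hu
      refine Submodule.mem_sup_left (h u hu.1 (infix_of_isArc hu.2) ?_)
      rw [← a3_length_rp]
      exact flatten_rotate_isArc hu.2
    · exact Submodule.zero_mem _
  obtain ⟨E, hE⟩ := minors_rat k (2 * (k * w.length) + 1) z w hw he (Nat.lt_succ_self _) (by
    intro a ha1 ha2
    rw [hz]
    show (if a ≠ [] ∧ IsArc (rp k w) a then (ze a : ℂ) else 0) = _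
    rw [if_pos ⟨ha1, ha2⟩])
  have hpow : ∀ i ≤ k, (Real.pi : ℂ) ^ (wt w * i) ∈ V' ^ w.length := by
    intro i hi
    obtain ⟨hE0, hE1⟩ := hE i hi
    have hsum : (Real.pi : ℂ) ^ (i * wt w) * ((E i : ℚ) : ℂ) ∈ V' ^ w.length := by
      rw [← hE1, Finset.mul_sum]
      refine Submodule.sum_mem _ fun s hs => ?_
      have hcard : s.card = i := (Finset.mem_powersetCard.mp hs).2
      have hm := minor_mem V' h1 (2 * (k * w.length) + 1) z hzV w i
        (fun t => ((s.equivFinOfCardEq hcard).symm t : IL (2 * (k * w.length) + 1)))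
        (fun t => ((s.equivFinOfCardEq hcard).symm t : IL (2 * (k * w.length) + 1)))
      convert hm using 2
      rw [← Matrix.det_submatrix_equiv_self (s.equivFinOfCardEq hcard).symm]
      rfl
    have hEK : ((E i : ℚ) : ℂ) ≠ 0 := by exact_mod_cast hE0
    have h2 := Submodule.smul_mem (V' ^ w.length) ((algebraMap ℚ K (E i)⁻¹) : K) hsum
    have h3 : (algebraMap ℚ K (E i)⁻¹ : K) • ((Real.pi : ℂ) ^ (i * wt w) * ((E i : ℚ) : ℂ)) = (Real.pi : ℂ) ^ (wt w * i) := by
      rw [Algebra.smul_def, ← IsScalarTower.algebraMap_apply ℚ K ℂ]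
      rw [mul_comm i (wt w)]
      have : (algebraMap ℚ ℂ (E i)⁻¹) = (((E i : ℚ) : ℂ))⁻¹ := by simp
      rw [this]
      field_simp
    rw [h3] at h2
    exact h2
  have := hVn
  exact (card_le_of_powers (Real.pi : ℂ) hπ (wt w) (a3_wt_pos w hw) (V' ^ w.length) k hpow).trans
    (finrank_pow_le' V w.length)

end Pool.Agent.PD
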