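import Pool.Agent.LibPO57.Basic

/-!
[PD57 D0] minors of one letter lie in `V`.

PLAN.  `T(x) = π^(-x) N`, `N v u = (if v.1 = x :: u.1 then 1 else 0) - (if v.1 = [] then z (x :: u.1) else 0)`; `det ((T(x)).submatrix a c) = (π^(-x))^j det (N.submatrix a c)` (`Matrix.det_smul` after writing the
submatrix as `(π^x)⁻¹ • ..`), so the number is `det (N.submatrix a c)`.  If `a` is not injective the determinant is `0` (`Matrix.det_zero_of_row_eq`).  If `a` is injective at most one `k0` has `(a k0).1 = []`.  `Matrix.det_apply`: sum over the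
permutations (`Submodule.sum_mem`) of `sign • ∏ k, N (a (σ k)) (c k)` (`zsmul_mem`): the factors with `σ k ≠ k0` are `0` or `1` (the second `if` is `0`), the factor with `σ k = k0` is `- z (..)` (`[] ≠ x :: u`), in `V`.  So the
product is in `V` (`Finset.mul_prod_erase`; the other factors multiply to `0` or `1`); if there is no `k0` the product is `0` or `1`, in `V` because `1 ∈ V`.
-/

set_option autoImplicit false

namespace Pool.Agent.PD

open Finset Pool.Agent.PO

private theorem D0_prod {ι : Type} (s : Finset ι) (f : ι → ℂ) (h : ∀ i ∈ s, f i = 0 ∨ f i = 1) :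
    ∏ i ∈ s, f i = 0 ∨ ∏ i ∈ s, f i = 1 := by
  by_cases h0 : ∃ i ∈ s, f i = 0
  · obtain ⟨i, hi, h1⟩ := h0
    exact Or.inl (Finset.prod_eq_zero hi h1)
  · refine Or.inr (Finset.prod_eq_one fun i hi => ?_)
    rcases h i hi with h1 | h1
    · exact absurd ⟨i, hi, h1⟩ h0
    · exact h1

theorem letter_minor_mem {K : IntermediateField ℚ ℂ} (V : Submodule K ℂ) (h1 : (1 : ℂ) ∈ V) (L : ℕ) (z : List Bool → ℂ)
    (hz : ∀ u, z u ∈ V) (x : Bool) (j : ℕ) (a c : Fin j → IL L) :
    (Real.pi : ℂ) ^ (j * ltr x) * ((Tm L z x).submatrix a c).det ∈ V := by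
  set N : Matrix (IL L) (IL L) ℂ := fun v u =>
    (if v.1 = x :: u.1 then 1 else 0) - (if v.1 = [] then z (x :: u.1) else 0) with hN
  have hpi : (Real.pi : ℂ) ^ ltr x ≠ 0 :=
    pow_ne_zero _ (by exact_mod_cast Real.pi_ne_zero)
  have h2 : (Tm L z x).submatrix a c = ((Real.pi : ℂ) ^ ltr x)⁻¹ • N.submatrix a c := by
    ext i k
    rfl
  have h3 : (Real.pi : ℂ) ^ (j * ltr x) * ((Tm L z x).submatrix a c).det =
      (N.submatrix a c).det := by
    rw [h2, Matrix.det_smul, Fintype.card_fin, ← mul_assoc, mul_comm j, pow_mul, ← mul_pow,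
      mul_inv_cancel₀ hpi, one_pow, one_mul]
  rw [h3]
  by_cases ha : Function.Injective a
  swap
  · rw [Function.Injective] at ha
    push Not at ha
    obtain ⟨i, i', h4, h5⟩ := ha
    rw [Matrix.det_zero_of_row_eq h5 (by
      ext k
      show N (a i) (c k) = N (a i') (c k)
      rw [h4])]
    exact V.zero_mem
  rw [Matrix.det_apply]
  refine Submodule.sum_mem _ fun σ _ => ?_
  have h6 : ∏ i, N.submatrix a c (σ i) i ∈ V := by
    have h7 : ∀ i, (a (σ i)).1 ≠ [] → N (a (σ i)) (c i) = 0 ∨ N (a (σ i)) (c i) = 1 := by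
      intro i hi
      rw [hN]
      simp only
      rw [if_neg hi, sub_zero]
      by_cases h8 : (a (σ i)).1 = x :: (c i).1
      · rw [if_pos h8]
        exact Or.inr rfl
      · rw [if_neg h8]
        exact Or.inl rfl
    by_cases h8 : ∃ k, (a (σ k)).1 = []
    · obtain ⟨k, hk⟩ := h8
      have h9 : N (a (σ k)) (c k) ∈ V := by
        rw [hN]
        simp only
        rw [if_pos hk, if_neg (by rw [hk]; simp), zero_sub]
        exact V.neg_mem (hz _)
      have h10 : ∀ i ∈ (Finset.univ : Finset (Fin j)).erase k,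
          N (a (σ i)) (c i) = 0 ∨ N (a (σ i)) (c i) = 1 := by
        intro i hi
        refine h7 i fun h11 => ?_
        have h12 : a (σ i) = a (σ k) := Subtype.ext (h11.trans hk.symm)
        exact (Finset.mem_erase.1 hi).1 (σ.injective (ha h12))
      have h13 : ∏ i, N.submatrix a c (σ i) i =
          N (a (σ k)) (c k) * ∏ i ∈ (Finset.univ : Finset (Fin j)).erase k, N (a (σ i)) (c i) :=
        (Finset.mul_prod_erase _ (fun i => N (a (σ i)) (c i)) (Finset.mem_univ k)).symm
      rw [h13]
      rcases D0_prod _ _ h10 with h14 | h14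
      · rw [h14, mul_zero]
        exact V.zero_mem
      · rw [h14, mul_one]
        exact h9
    · push Not at h8
      have h9 : ∏ i, N.submatrix a c (σ i) i = ∏ i, N (a (σ i)) (c i) := rfl
      rw [h9]
      rcases D0_prod Finset.univ (fun i => N (a (σ i)) (c i)) fun i _ => h7 i (h8 i) with h14 | h14
      · rw [h14]
        exact V.zero_mem
      · rw [h14]
        exact h1
  rcases Int.units_eq_one_or (Equiv.Perm.sign σ) with hs | hs
  · rw [hs, one_smul]
    exact h6
  · rw [hs, Units.neg_smul, one_smul]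
    exact V.neg_mem h6

end Pool.Agent.PD
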